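import Mathlib

/-!
# A completely regular non-normal space in which every subset is 1-embedded (in ZFC)

The space consists of isolated points `D n U i`, of points `A n U` and of points `B i`, where
`n : ℕ`, `i : ℝ`, and `U` runs over the countably incomplete ultrafilters on `ℝ`.
-/

namespace Pool.Agent.Results.MP_493890_gt.NonNormalAllOneEmbedded

open Set Topology Filter

universe u

/-- Functionally closed sets: zero sets of continuous functions into `[0,1]`. -/
def FClosed {X : Type u} [TopologicalSpace X] (A : Set X) : Prop :=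
  ∃ f : X → ℝ, Continuous f ∧ (∀ x, 0 ≤ f x ∧ f x ≤ 1) ∧ A = {x | f x = 0}

/-- Functionally open sets: preimages of `(0,1]` under continuous functions into `[0,1]`. -/
def FOpen {X : Type u} [TopologicalSpace X] (A : Set X) : Prop :=
  ∃ f : X → ℝ, Continuous f ∧ (∀ x, 0 ≤ f x ∧ f x ≤ 1) ∧ A = {x | 0 < f x}

/-- Functionally `F_σ` sets: countable unions of functionally closed sets. -/
def FSigma {X : Type u} [TopologicalSpace X] (A : Set X) : Prop :=
  ∃ F : ℕ → Set X, (∀ n, FClosed (F n)) ∧ A = ⋃ n, F n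

/-- Functionally `G_δ` sets: countable intersections of functionally open sets. -/
def GDelta {X : Type u} [TopologicalSpace X] (A : Set X) : Prop :=
  ∃ F : ℕ → Set X, (∀ n, FOpen (F n)) ∧ A = ⋂ n, F n

/-- `E` is 1-embedded in `X`: each functionally `F_σ` (`G_δ`) subset of the subspace `E` is the
trace on `E` of a functionally `F_σ` (`G_δ`) subset of `X`. -/
def OneEmbedded {X : Type u} [TopologicalSpace X] (E : Set X) : Prop :=
  (∀ S : Set E, FSigma S → ∃ C : Set X, FSigma C ∧ S = {x : E | (x : X) ∈ C}) ∧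
  (∀ S : Set E, GDelta S → ∃ C : Set X, GDelta C ∧ S = {x : E | (x : X) ∈ C})

/-- The countably incomplete ultrafilters on `ℝ`. -/
def UU : Type := {U : Ultrafilter ℝ // ∃ g : ℝ → ℕ, Tendsto g (U : Filter ℝ) atTop}

/-- A witness of countable incompleteness. -/
noncomputable def UU.g (U : UU) : ℝ → ℕ := U.2.choose

lemma UU.tendsto (U : UU) : Tendsto U.g (U.1 : Filter ℝ) atTop := U.2.choose_spec

/-- The points of the space. -/
inductive Pt : Type
  | D : ℕ → UU → ℝ → Pt
  | A : ℕ → UU → Pt
  | B : ℝ → Pt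

open Pt

instance : TopologicalSpace Pt where
  IsOpen V := (∀ n U, A n U ∈ V → ∀ᶠ i in (U.1 : Filter ℝ), D n U i ∈ V) ∧
    (∀ i, B i ∈ V → ∃ n, ∀ m, n ≤ m → ∀ U, D m U i ∈ V)
  isOpen_univ := ⟨fun _ _ _ => Eventually.of_forall fun _ => mem_univ _,
    fun _ _ => ⟨0, fun _ _ _ => mem_univ _⟩⟩
  isOpen_inter := by
    rintro V W ⟨hV1, hV2⟩ ⟨hW1, hW2⟩
    refine ⟨fun n U h => ((hV1 n U h.1).and (hW1 n U h.2)).mono fun _ h => ⟨h.1, h.2⟩, ?_⟩
    intro i h
    obtain ⟨a, ha⟩ := hV2 i h.1
    obtain ⟨b, hb⟩ := hW2 i h.2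
    exact ⟨max a b, fun m hm U => ⟨ha m (le_trans (le_max_left _ _) hm) U,
      hb m (le_trans (le_max_right _ _) hm) U⟩⟩
  isOpen_sUnion := by
    intro S hS
    refine ⟨?_, ?_⟩
    · rintro n U ⟨V, hV, hx⟩
      exact ((hS V hV).1 n U hx).mono fun i hi => ⟨V, hV, hi⟩
    · rintro i ⟨V, hV, hx⟩
      obtain ⟨n, hn⟩ := (hS V hV).2 i hx
      exact ⟨n, fun m hm U => ⟨V, hV, hn m hm U⟩⟩

lemma isOpen_iff' (V : Set Pt) : IsOpen V ↔
    (∀ n U, A n U ∈ V → ∀ᶠ i in (U.1 : Filter ℝ), D n U i ∈ V) ∧
    (∀ i, B i ∈ V → ∃ n, ∀ m, n ≤ m → ∀ U, D m U i ∈ V) := Iff.rfl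

lemma continuous_of {Y : Type*} [TopologicalSpace Y] {f : Pt → Y}
    (h1 : ∀ n U, ∀ V ∈ 𝓝 (f (A n U)), ∀ᶠ i in (U.1 : Filter ℝ), f (D n U i) ∈ V)
    (h2 : ∀ i, ∀ V ∈ 𝓝 (f (B i)), ∃ n, ∀ m, n ≤ m → ∀ U, f (D m U i) ∈ V) : Continuous f := by
  refine continuous_def.2 fun V hV => (isOpen_iff' _).2 ⟨fun n U h => ?_, fun i h => ?_⟩
  · exact h1 n U V (hV.mem_nhds h)
  · exact h2 i V (hV.mem_nhds h)

/-- Criterion for continuity that suffices for all functions that we use. -/
lemma continuous_of' {Y : Type*} [TopologicalSpace Y] {f : Pt → Y}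
    (h1 : ∀ n U, ∀ᶠ i in (U.1 : Filter ℝ), f (D n U i) = f (A n U))
    (h2 : ∀ i, ∃ n, ∀ m, n ≤ m → ∀ U, f (D m U i) = f (B i)) : Continuous f := by
  refine continuous_of (fun n U V hV => ?_) (fun i V hV => ?_)
  · exact (h1 n U).mono fun i hi => by rw [hi]; exact mem_of_mem_nhds hV
  · obtain ⟨n, hn⟩ := h2 i
    exact ⟨n, fun m hm U => by rw [hn m hm U]; exact mem_of_mem_nhds hV⟩

lemma UU.ne (U : UU) (i : ℝ) : ∀ᶠ j in (U.1 : Filter ℝ), j ≠ i := by
  have h := U.tendsto.eventually (eventually_gt_atTop (U.g i))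
  exact h.mono fun j hj hji => by subst hji; exact lt_irrefl _ hj

lemma isClopen_of (V : Set Pt)
    (h1 : ∀ n U, ∀ᶠ i in (U.1 : Filter ℝ), (D n U i ∈ V ↔ A n U ∈ V))
    (h2 : ∀ i, ∃ n, ∀ m, n ≤ m → ∀ U, (D m U i ∈ V ↔ B i ∈ V)) : IsClopen V := by
  constructor
  · refine ⟨(isOpen_iff' _).2 ⟨fun n U h => ?_, fun i h => ?_⟩⟩
    · exact (h1 n U).mono fun i hi hV => h (hi.1 hV)
    · obtain ⟨n, hn⟩ := h2 i
      exact ⟨n, fun m hm U hV => h ((hn m hm U).1 hV)⟩
  · refine (isOpen_iff' _).2 ⟨fun n U h => ?_, fun i h => ?_⟩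
    · exact (h1 n U).mono fun i hi => hi.2 h
    · obtain ⟨n, hn⟩ := h2 i
      exact ⟨n, fun m hm U => (hn m hm U).2 h⟩

/-- Each point has arbitrarily small clopen neighbourhoods. -/
lemma exists_clopen (x : Pt) (V : Set Pt) (hV : IsOpen V) (hx : x ∈ V) :
    ∃ W : Set Pt, IsClopen W ∧ x ∈ W ∧ W ⊆ V := by
  rcases x with ⟨n, U, i⟩ | ⟨n, U⟩ | i
  · refine ⟨{D n U i}, isClopen_of _ (fun m U' => ?_) (fun j => ⟨n + 1, fun m hm U' => ?_⟩), rfl,
      by simpa using hx⟩
    · exact (U'.ne i).mono fun j hj => by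
        constructor
        · intro h
          rw [mem_singleton_iff] at h
          injection h with _ _ h3
          exact absurd h3 hj
        · intro h
          rw [mem_singleton_iff] at h
          injection h
    · constructor
      · intro h
        rw [mem_singleton_iff] at h
        injection h with h1 _ _
        omega
      · intro h
        rw [mem_singleton_iff] at h
        injection h
  · refine ⟨{y | y = A n U ∨ ∃ i, y = D n U i ∧ y ∈ V}, isClopen_of _ (fun m U' => ?_)
      (fun j => ⟨n + 1, fun m hm U' => ?_⟩), Or.inl rfl, ?_⟩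
    · by_cases h : m = n ∧ U' = U
      · obtain ⟨rfl, rfl⟩ := h
        have := ((isOpen_iff' V).1 hV).1 m U' hx
        refine this.mono fun j hj => ⟨fun _ => Or.inl rfl, fun _ => Or.inr ⟨j, rfl, hj⟩⟩
      · refine Eventually.of_forall fun j => ⟨?_, ?_⟩
        · rintro (h' | ⟨i, h', -⟩)
          · injection h'
          · injection h' with h1 h2 _
            exact absurd ⟨h1, h2⟩ h
        · rintro (h' | ⟨i, h', -⟩)
          · injection h' with h1 h2
            exact absurd ⟨h1, h2⟩ h
          · injection h'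
    · constructor
      · rintro (h' | ⟨i, h', -⟩)
        · injection h'
        · injection h' with h1 _ _
          omega
      · rintro (h' | ⟨i, h', -⟩)
        · injection h'
        · injection h'
    · rintro y (rfl | ⟨i, -, hy⟩)
      · exact hx
      · exact hy
  · obtain ⟨n, hn⟩ := ((isOpen_iff' V).1 hV).2 i hx
    refine ⟨{y | y = B i ∨ ∃ m U, n ≤ m ∧ y = D m U i}, isClopen_of _ (fun m U' => ?_)
      (fun j => ⟨n, fun m hm U' => ?_⟩), Or.inl rfl, ?_⟩
    · refine (U'.ne i).mono fun j hj => ⟨?_, ?_⟩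
      · rintro (h' | ⟨m', U'', -, h'⟩)
        · injection h'
        · injection h' with _ _ h3
          exact absurd h3 hj
      · rintro (h' | ⟨m', U'', -, h'⟩)
        · injection h'
        · injection h'
    · constructor
      · rintro (h' | ⟨m', U'', -, h'⟩)
        · injection h'
        · injection h' with _ _ h3
          exact Or.inl (by rw [h3])
      · rintro (h' | ⟨m', U'', -, h'⟩)
        · injection h' with h1
          exact Or.inr ⟨m, U', hm, by rw [h1]⟩
        · injection h'
    · rintro y (rfl | ⟨m, U, hm, rfl⟩)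
      · exact hx
      · exact hn m hm U

instance : CompletelyRegularSpace Pt where
  completely_regular := by
    intro x K hK hx
    obtain ⟨W, hW, hxW, hWK⟩ := exists_clopen x Kᶜ hK.isOpen_compl hx
    classical
    refine ⟨fun y => if y ∈ W then 0 else 1, ?_, by simp [hxW], ?_⟩
    · refine continuous_const.if ?_ continuous_const
      intro a ha
      have hf : frontier {y | y ∈ W} = ∅ := hW.frontier_eq
      rw [hf] at ha
      exact absurd ha (notMem_empty _)
    · intro y hy
      have : y ∉ W := fun h => hWK h hy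
      simp [this]

instance : T1Space Pt where
  t1 := by
    intro x
    refine ⟨(isOpen_iff' _).2 ⟨fun n U _ => ?_, fun i _ => ?_⟩⟩
    · rcases x with ⟨m, U', j⟩ | ⟨m, U'⟩ | j
      · refine (U.ne j).mono fun i hi h => ?_
        rw [mem_singleton_iff] at h
        injection h with _ _ h3
        exact hi h3
      · refine Eventually.of_forall fun i h => ?_
        rw [mem_singleton_iff] at h
        injection h
      · refine Eventually.of_forall fun i h => ?_
        rw [mem_singleton_iff] at h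
        injection h
    · rcases x with ⟨m, U', j⟩ | ⟨m, U'⟩ | j
      · refine ⟨m + 1, fun m' hm' U h => ?_⟩
        rw [mem_singleton_iff] at h
        injection h with h1 _ _
        omega
      · refine ⟨0, fun m' hm' U h => ?_⟩
        rw [mem_singleton_iff] at h
        injection h
      · refine ⟨0, fun m' hm' U h => ?_⟩
        rw [mem_singleton_iff] at h
        injection h

/-- The space is not normal. -/
lemma not_normal : ¬ NormalSpace Pt := by
  intro hN
  have hA : IsClosed (range fun p : ℕ × UU => A p.1 p.2) := by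
    refine ⟨(isOpen_iff' _).2 ⟨fun n U h => absurd ⟨(n, U), rfl⟩ h, fun i _ => ⟨0, ?_⟩⟩⟩
    rintro m - U ⟨p, hp⟩
    injection hp
  have hB : IsClosed (range B) := by
    refine ⟨(isOpen_iff' _).2 ⟨fun n U _ => Eventually.of_forall ?_,
      fun i h => absurd ⟨i, rfl⟩ h⟩⟩
    rintro i ⟨p, hp⟩
    injection hp
  have hAB : Disjoint (range fun p : ℕ × UU => A p.1 p.2) (range B) := by
    rw [Set.disjoint_left]
    rintro _ ⟨p, rfl⟩ ⟨i, hi⟩
    injection hi
  obtain ⟨V, W, hV, hW, hAV, hBW, hVW⟩ := hN.normal _ _ hA hB hAB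
  have hτ : ∀ i : ℝ, ∃ n, ∀ m, n ≤ m → ∀ U, D m U i ∈ W := fun i =>
    ((isOpen_iff' W).1 hW).2 i (hBW ⟨i, rfl⟩)
  choose τ hτ using hτ
  -- some fibre of `τ` is infinite
  have hinf : ∃ k, (τ ⁻¹' {k}).Infinite := by
    by_contra hcon
    push Not at hcon
    have hc : (⋃ k, τ ⁻¹' {k}).Countable := countable_iUnion fun k => (hcon k).countable
    have hu : (⋃ k, τ ⁻¹' {k}) = (univ : Set ℝ) := by
      ext i
      simp
    rw [hu] at hc
    exact not_countable_univ hc
  obtain ⟨k, hk⟩ := hinf
  -- an ultrafilter concentrated on a countable subset of this fibre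
  let e : ℕ ↪ (τ ⁻¹' {k}) := hk.natEmbedding
  let e' : ℕ → ℝ := fun n => (e n : ℝ)
  have he' : Function.Injective e' := fun a b hab => e.injective (Subtype.ext hab)
  let F : Ultrafilter ℝ := (hyperfilter ℕ).map e'
  have hF : ∃ g : ℝ → ℕ, Tendsto g (F : Filter ℝ) atTop := by
    refine ⟨Function.invFun e', ?_⟩
    rw [Ultrafilter.coe_map, tendsto_map'_iff]
    have : Function.invFun e' ∘ e' = id := Function.invFun_comp he'
    rw [this]
    exact Nat.hyperfilter_le_atTop
  let U : UU := ⟨F, hF⟩
  have h1 : ∀ᶠ i in (F : Filter ℝ), D k U i ∈ V :=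
    ((isOpen_iff' V).1 hV).1 k U (hAV ⟨(k, U), rfl⟩)
  have h2 : ∀ᶠ i in (F : Filter ℝ), i ∈ τ ⁻¹' {k} := by
    rw [Ultrafilter.coe_map, eventually_map]
    exact Eventually.of_forall fun n => (e n).2
  obtain ⟨i, hi1, hi2⟩ := (h1.and h2).exists
  have hi3 : τ i = k := hi2
  have hi4 : D k U i ∈ W := hτ i k (le_of_eq hi3) U
  exact Set.disjoint_left.1 hVW hi1 hi4

/-! ### Every subset is functionally `F_σ` -/

lemma fSigma_iUnion {X : Type u} [TopologicalSpace X] {ι : Type} [Countable ι] [Nonempty ι]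
    (F : ι → Set X) (hF : ∀ i, FClosed (F i)) : FSigma (⋃ i, F i) := by
  obtain ⟨e, he⟩ := exists_surjective_nat ι
  exact ⟨fun n => F (e n), fun n => hF _, (he.iUnion_comp F).symm⟩

lemma fClosed_B (G : Set Pt) : FClosed {x | ∃ i, x = B i ∧ x ∈ G} := by
  classical
  let f : Pt → ℝ
    | D n _ i => if B i ∈ G then 1 / ((n : ℝ) + 1) else 1
    | A n U => if (∀ᶠ i in (U.1 : Filter ℝ), B i ∈ G) then 1 / ((n : ℝ) + 1) else 1
    | B i => if B i ∈ G then 0 else 1
  have hpos : ∀ n : ℕ, (0 : ℝ) < 1 / ((n : ℝ) + 1) := fun n => by positivity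
  have hle : ∀ n : ℕ, 1 / ((n : ℝ) + 1) ≤ 1 := fun n => by
    rw [div_le_one (by positivity)]
    have : (0 : ℝ) ≤ n := Nat.cast_nonneg n
    linarith
  refine ⟨f, continuous_of ?_ ?_, ?_, ?_⟩
  · intro n U V hV
    by_cases h : ∀ᶠ i in (U.1 : Filter ℝ), B i ∈ G
    · refine h.mono fun i hi => ?_
      have h1 : f (D n U i) = f (A n U) := by simp only [f, if_pos hi, if_pos h]
      rw [h1]
      exact mem_of_mem_nhds hV
    · have h' : ∀ᶠ i in (U.1 : Filter ℝ), ¬ B i ∈ G := by
        rw [Ultrafilter.eventually_not]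
        exact h
      refine h'.mono fun i hi => ?_
      have h1 : f (D n U i) = f (A n U) := by simp only [f, if_neg hi, if_neg h]
      rw [h1]
      exact mem_of_mem_nhds hV
  · intro i V hV
    by_cases h : B i ∈ G
    · have h0 : f (B i) = 0 := by simp only [f, if_pos h]
      rw [h0] at hV
      have ht : Tendsto (fun n : ℕ => 1 / ((n : ℝ) + 1)) atTop (𝓝 0) :=
        tendsto_one_div_add_atTop_nhds_zero_nat
      obtain ⟨n, hn⟩ := eventually_atTop.1 (ht.eventually hV)
      refine ⟨n, fun m hm U => ?_⟩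
      have h1 : f (D m U i) = 1 / ((m : ℝ) + 1) := by simp only [f, if_pos h]
      rw [h1]
      exact hn m hm
    · refine ⟨0, fun m _ U => ?_⟩
      have h1 : f (D m U i) = f (B i) := by simp only [f, if_neg h]
      rw [h1]
      exact mem_of_mem_nhds hV
  · rintro (⟨n, U, i⟩ | ⟨n, U⟩ | i)
    · simp only [f]
      split_ifs
      · exact ⟨(hpos n).le, hle n⟩
      · norm_num
    · simp only [f]
      split_ifs
      · exact ⟨(hpos n).le, hle n⟩
      · norm_num
    · simp only [f]
      split_ifs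
      · norm_num
      · norm_num
  · ext x
    rcases x with ⟨n, U, i⟩ | ⟨n, U⟩ | i
    · simp only [mem_ofPred_eq, f]
      constructor
      · rintro ⟨j, h, -⟩
        injection h
      · intro h
        split_ifs at h
        · exact absurd h (hpos n).ne'
        · exact absurd h one_ne_zero
    · simp only [mem_ofPred_eq, f]
      constructor
      · rintro ⟨j, h, -⟩
        injection h
      · intro h
        split_ifs at h
        · exact absurd h (hpos n).ne'
        · exact absurd h one_ne_zero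
    · simp only [mem_ofPred_eq, f]
      constructor
      · rintro ⟨j, -, h⟩
        rw [if_pos h]
      · intro h
        split_ifs at h with h'
        · exact ⟨i, rfl, h'⟩
        · exact absurd h one_ne_zero

lemma fClosed_A (G : Set Pt) (k : ℕ) : FClosed {x | ∃ U, x = A k U ∧ x ∈ G} := by
  classical
  let f : Pt → ℝ
    | D n U i => if n = k ∧ A n U ∈ G then 1 / ((U.g i : ℝ) + 1) else 1
    | A n U => if n = k ∧ A n U ∈ G then 0 else 1
    | B _ => 1
  have hpos : ∀ n : ℕ, (0 : ℝ) < 1 / ((n : ℝ) + 1) := fun n => by positivity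
  have hle : ∀ n : ℕ, 1 / ((n : ℝ) + 1) ≤ 1 := fun n => by
    rw [div_le_one (by positivity)]
    have : (0 : ℝ) ≤ n := Nat.cast_nonneg n
    linarith
  refine ⟨f, continuous_of ?_ ?_, ?_, ?_⟩
  · intro n U V hV
    by_cases h : n = k ∧ A n U ∈ G
    · have h0 : f (A n U) = 0 := by simp only [f, if_pos h]
      rw [h0] at hV
      have ht : Tendsto (fun n : ℕ => 1 / ((n : ℝ) + 1)) atTop (𝓝 0) :=
        tendsto_one_div_add_atTop_nhds_zero_nat
      refine ((ht.comp U.tendsto).eventually hV).mono fun i hi => ?_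
      have h1 : f (D n U i) = 1 / ((U.g i : ℝ) + 1) := by simp only [f, if_pos h]
      rw [h1]
      exact hi
    · refine Eventually.of_forall fun i => ?_
      have h1 : f (D n U i) = f (A n U) := by simp only [f, if_neg h]
      rw [h1]
      exact mem_of_mem_nhds hV
  · intro i V hV
    refine ⟨k + 1, fun m hm U => ?_⟩
    have hmk : ¬ (m = k ∧ A m U ∈ G) := fun h => by omega
    have h1 : f (D m U i) = f (B i) := by simp only [f, if_neg hmk]
    rw [h1]
    exact mem_of_mem_nhds hV
  · rintro (⟨n, U, i⟩ | ⟨n, U⟩ | i)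
    · simp only [f]
      split_ifs
      · exact ⟨(hpos _).le, hle _⟩
      · norm_num
    · simp only [f]
      split_ifs
      · norm_num
      · norm_num
    · simp only [f]
      norm_num
  · ext x
    rcases x with ⟨n, U, i⟩ | ⟨n, U⟩ | i
    · simp only [mem_ofPred_eq, f]
      constructor
      · rintro ⟨j, h, -⟩
        injection h
      · intro h
        split_ifs at h
        · exact absurd h (hpos _).ne'
        · exact absurd h one_ne_zero
    · simp only [mem_ofPred_eq, f]
      constructor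
      · rintro ⟨j, h, h'⟩
        have hn : n = k := by injection h
        rw [if_pos ⟨hn, h'⟩]
      · intro h
        split_ifs at h with h'
        · exact ⟨U, by rw [h'.1], h'.2⟩
        · exact absurd h one_ne_zero
    · simp only [mem_ofPred_eq, f]
      constructor
      · rintro ⟨j, h, -⟩
        injection h
      · intro h
        exact absurd h one_ne_zero

lemma fClosed_D (G : Set Pt) (k l : ℕ) :
    FClosed {x | ∃ U i, x = D k U i ∧ x ∈ G ∧ U.g i ≤ l} := by
  classical
  let f : Pt → ℝ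
    | D n U i => if n = k ∧ D n U i ∈ G ∧ U.g i ≤ l then 0 else 1
    | A _ _ => 1
    | B _ => 1
  refine ⟨f, continuous_of' ?_ ?_, ?_, ?_⟩
  · intro n U
    refine (U.tendsto.eventually (eventually_gt_atTop l)).mono fun i hi => ?_
    have : ¬ (n = k ∧ D n U i ∈ G ∧ U.g i ≤ l) := fun h => absurd h.2.2 (not_le.2 hi)
    simp only [f, if_neg this]
  · intro i
    refine ⟨k + 1, fun m hm U => ?_⟩
    have : ¬ (m = k ∧ D m U i ∈ G ∧ U.g i ≤ l) := fun h => by omega
    simp only [f, if_neg this]
  · rintro (⟨n, U, i⟩ | ⟨n, U⟩ | i)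
    · simp only [f]
      split_ifs
      · norm_num
      · norm_num
    · simp only [f]
      norm_num
    · simp only [f]
      norm_num
  · ext x
    rcases x with ⟨n, U, i⟩ | ⟨n, U⟩ | i
    · simp only [mem_ofPred_eq, f]
      constructor
      · rintro ⟨U', j, h, hG, hl⟩
        have hn : n = k := by injection h
        have hU : U = U' := by injection h
        have hi : i = j := by injection h
        subst hU hi
        rw [if_pos ⟨hn, hG, hl⟩]
      · intro h
        split_ifs at h with h'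
        · exact ⟨U, i, by rw [h'.1], h'.2⟩
        · exact absurd h one_ne_zero
    · simp only [mem_ofPred_eq, f]
      constructor
      · rintro ⟨_, _, h, -⟩
        injection h
      · intro h
        exact absurd h one_ne_zero
    · simp only [mem_ofPred_eq, f]
      constructor
      · rintro ⟨_, _, h, -⟩
        injection h
      · intro h
        exact absurd h one_ne_zero

/-- Every subset of the space is functionally `F_σ`. -/
lemma fSigma_all (G : Set Pt) : FSigma G := by
  let F : Option (ℕ ⊕ (ℕ × ℕ)) → Set Pt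
    | none => {x | ∃ i, x = B i ∧ x ∈ G}
    | some (Sum.inl k) => {x | ∃ U, x = A k U ∧ x ∈ G}
    | some (Sum.inr p) => {x | ∃ U i, x = D p.1 U i ∧ x ∈ G ∧ U.g i ≤ p.2}
  have hF : ∀ i, FClosed (F i) := by
    rintro (_ | (k | p))
    · exact fClosed_B G
    · exact fClosed_A G k
    · exact fClosed_D G p.1 p.2
  have hG : G = ⋃ i, F i := by
    ext x
    rw [mem_iUnion]
    constructor
    · intro hx
      rcases x with ⟨n, U, i⟩ | ⟨n, U⟩ | i
      · exact ⟨some (Sum.inr (n, U.g i)), U, i, rfl, hx, le_refl _⟩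
      · exact ⟨some (Sum.inl n), U, rfl, hx⟩
      · exact ⟨none, i, rfl, hx⟩
    · rintro ⟨_ | (k | p), hx⟩
      · exact hx.choose_spec.2
      · exact hx.choose_spec.2
      · exact hx.choose_spec.choose_spec.2.1
  rw [hG]
  exact fSigma_iUnion F hF

lemma gDelta_of_compl {X : Type u} [TopologicalSpace X] (G : Set X) (h : FSigma Gᶜ) :
    GDelta G := by
  obtain ⟨F, hF, hG⟩ := h
  refine ⟨fun n => (F n)ᶜ, fun n => ?_, ?_⟩
  · obtain ⟨f, hf, h01, hfn⟩ := hF n
    refine ⟨f, hf, h01, ?_⟩
    ext x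
    rw [mem_compl_iff, hfn, mem_ofPred_eq, mem_ofPred_eq]
    exact ⟨fun h => lt_of_le_of_ne (h01 x).1 (Ne.symm h), fun h => h.ne'⟩
  · rw [← compl_iUnion, ← hG, compl_compl]

lemma gDelta_all (G : Set Pt) : GDelta G := gDelta_of_compl G (fSigma_all Gᶜ)

/-- **In ZFC there is a completely regular `T1` space which is not normal (hence not perfectly
normal) and in which every subset is 1-embedded.**  In this space even every subset is
functionally `F_σ` and functionally `G_δ`. -/
theorem result : ∃ (X : Type) (_ : TopologicalSpace X), T1Space X ∧ CompletelyRegularSpace X ∧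
    ¬ NormalSpace X ∧ ¬ PerfectlyNormalSpace X ∧
    (∀ E : Set X, FSigma E ∧ GDelta E) ∧ (∀ E : Set X, OneEmbedded E) := by
  refine ⟨Pt, inferInstance, inferInstance, inferInstance, not_normal, ?_, ?_, ?_⟩
  · intro h
    exact not_normal h.toNormalSpace
  · exact fun E => ⟨fSigma_all E, gDelta_all E⟩
  · intro E
    refine ⟨fun S _ => ⟨Subtype.val '' S, fSigma_all _, ?_⟩,
      fun S _ => ⟨Subtype.val '' S, gDelta_all _, ?_⟩⟩
    · ext x
      simp
    · ext x
      simp

end Pool.Agent.Results.MP_493890_gt.NonNormalAllOneEmbedded
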